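import Mathlib
import Pool.Agent.Helper53.SpecDefs
import Pool.Agent.Helper53.SpecInst

set_option autoImplicit false

/-!
If the radical `N` is special, then Köthe's conjecture (in Krempa's matrix form) holds for all
algebras over fields whose finitely generated subalgebras are residually nilpotent.
-/

namespace Pool.Agent.Results.MP_12f9b1_al.SpecialForcesKoethe

open Pool.Agent.Helper53.Spec

/-- Let `B` be a nil algebra over a field `F`, all of whose finitely generated subalgebras `C`
satisfy `⋂ C ^ k = 0`.  If some matrix ring `M_n(B)` is not nil, then there is a nonzero ring `R`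
without nonzero nil one-sided ideals, such that every nonzero prime homomorphic image of `R` has a
nonzero nil left ideal; in particular the radical `N` is not special. -/
theorem result (F B : Type) [Field F] [NonUnitalRing B] [Module F B] [IsScalarTower F B B]
    [SMulCommClass F B B]
    (hnil : ∀ b : B, Nil b)
    (hres : ∀ X : Finset B,
      ⨅ k, lowerPow (NonUnitalAlgebra.adjoin F (X : Set B)).toSubmodule k = ⊥)
    (n : ℕ) (A : Matrix (Fin n) (Fin n) B) (hA : ¬ Nil A) :
    (∃ (R : Type) (_ : NonUnitalRing R), Nontrivial R ∧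
      (∀ L : AddSubgroup R,
        ((∀ (r x : R), x ∈ L → r * x ∈ L) ∨ (∀ (r x : R), x ∈ L → x * r ∈ L)) →
        (∀ x ∈ L, Nil x) → L = ⊥) ∧
      ∀ (S : Type) [NonUnitalRing S] (g : R →ₙ+* S), Function.Surjective g →
        Nontrivial S → (∀ a b : S, (∀ r : S, a * r * b = 0) → a = 0 ∨ b = 0) →
        ∃ L : AddSubgroup S, (∀ (r x : S), x ∈ L → r * x ∈ L) ∧ (∀ x ∈ L, Nil x) ∧ L ≠ ⊥) ∧
    ¬ NSpecial := by
  classical
  let X : Finset B := Finset.univ.image (fun p : Fin n × Fin n => A p.1 p.2)
  let C : NonUnitalSubalgebra F B := NonUnitalAlgebra.adjoin F (X : Set B)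
  have hXC : ∀ x ∈ X, x ∈ C := fun x hx => NonUnitalAlgebra.subset_adjoin F hx
  have hAC : ∀ i j, A i j ∈ C := fun i j =>
    hXC _ (Finset.mem_image.2 ⟨(i, j), Finset.mem_univ _, rfl⟩)
  let ι : C →ₙ+* B := NonUnitalSubringClass.subtype C
  have hι : Function.Injective ι := Subtype.val_injective
  let A' : Matrix (Fin n) (Fin n) C := Matrix.of fun i j => ⟨A i j, hAC i j⟩
  let X' : Finset C := X.attach.image (fun x => ⟨x.1, hXC x.1 x.2⟩)
  have hX' : NonUnitalAlgebra.adjoin F (X' : Set C) = ⊤ := by
    rw [eq_top_iff]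
    rintro ⟨x, hx⟩ -
    have key : ∀ (x : B) (hx : x ∈ NonUnitalAlgebra.adjoin F (X : Set B)),
        (⟨x, hx⟩ : C) ∈ NonUnitalAlgebra.adjoin F (X' : Set C) := by
      intro x hx
      induction hx using NonUnitalAlgebra.adjoin_induction with
      | mem x hx =>
        apply NonUnitalAlgebra.subset_adjoin F
        rw [Finset.mem_coe]
        exact Finset.mem_image.2 ⟨⟨x, hx⟩, Finset.mem_attach _ _, rfl⟩
      | add x y hx hy h1 h2 => exact add_mem h1 h2
      | zero => exact zero_mem _
      | mul x y hx hy h1 h2 => exact mul_mem h1 h2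
      | smul r x hx h => exact SMulMemClass.smul_mem r h
    exact key x hx
  have hlow : ∀ k (c : C), c ∈ lowerPow (⊤ : Submodule F C) k →
      (c : B) ∈ lowerPow C.toSubmodule k := by
    intro k
    induction k with
    | zero => intro c _; exact c.2
    | succ k ih =>
      intro c hc
      have hc' : c ∈ Submodule.span F {z : C | ∃ x ∈ (⊤ : Submodule F C),
          ∃ y ∈ lowerPow (⊤ : Submodule F C) k, z = x * y} := hc
      induction hc' using Submodule.span_induction with
      | mem z hz =>
        obtain ⟨x, -, y, hy, rfl⟩ := hz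
        exact Submodule.subset_span ⟨x, x.2, y, ih y hy, rfl⟩
      | zero => exact zero_mem _
      | add x y hx hy h1 h2 => exact add_mem (h1 hx) (h2 hy)
      | smul r x hx h => exact Submodule.smul_mem _ r (h hx)
  have hnilC : ∀ c : C, Nil c := fun c => Nil.of_injective ι hι (hnil _)
  have hresC : ∀ c : C, c ≠ 0 → ∃ k, c ∉ lowerPow (⊤ : Submodule F C) k := by
    intro c hc
    by_contra hcon
    push Not at hcon
    apply hc
    apply hι
    rw [map_zero]
    have h1 : (c : B) ∈ ⨅ k, lowerPow C.toSubmodule k := by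
      rw [Submodule.mem_iInf]
      exact fun k => hlow k c (hcon k)
    rw [hres X] at h1
    exact h1
  have hA' : ¬ Nil A' := by
    rintro ⟨k, hk⟩
    apply hA
    refine ⟨k, ?_⟩
    have hk' : pw A' k = 0 := hk
    change pw A k = 0
    have hmap : ∀ m, (pw A' m).map ι = pw A m := by
      intro m
      induction m with
      | zero => rfl
      | succ m ih =>
        rw [pw_succ, pw_succ, Matrix.map_mul, ih]
        rfl
    rw [← hmap, hk']
    refine Matrix.ext fun i j => ?_
    rw [Matrix.map_apply, Matrix.zero_apply, Matrix.zero_apply, map_zero]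
  obtain ⟨R, iR, hnt, hss, hpr⟩ := main_fg (F := F) (B := C) hnilC X' hX' hresC A' hA'
  refine ⟨⟨R, iR, hnt, hss, ?_⟩, fun h => core h R hss hpr⟩
  intro S iS g hg hS hp
  obtain ⟨z, hz0, hz⟩ := hpr S g hg hS hp
  refine ⟨(AddMonoidHom.mulRight z).range, ?_, ?_, ?_⟩
  · rintro r _ ⟨y, rfl⟩
    exact ⟨r * y, by simp [mul_assoc]⟩
  · rintro _ ⟨y, rfl⟩
    exact hz y
  · intro hbot
    have h0 : ∀ r : S, r * z = 0 := by
      intro r
      have : r * z ∈ (AddMonoidHom.mulRight z).range := ⟨r, rfl⟩
      rw [hbot] at this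
      simpa using this
    rcases hp z z (fun r => by rw [mul_assoc, h0, mul_zero]) with h | h <;> exact hz0 h

end Pool.Agent.Results.MP_12f9b1_al.SpecialForcesKoethe
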